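import Pool.Agent.Y131.LM.Main

/-!
# Convergent sequences in closed normal subgroups of locally minimal precompact groups

Let `G` be a Hausdorff precompact topological group which is locally minimal, and let `H` be an
infinite closed normal subgroup of `G`.  Then `H` contains a sequence of pairwise distinct points
which converges to `1`, and if `H` is not metrizable (not first countable), then there is even a
strictly decreasing sequence of closed normal subgroups of `G`, contained in `H`, which converges
to `1`.  With `H = G` and `G` minimal this contains the full answer to Q1 and Q2.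
-/

set_option autoImplicit false

open Filter Topology Pointwise

namespace Pool.Agent.Results.MP_47408d_gt.LocallyMinimal

/-- **Main theorem.**  Part (A): `G` is a Hausdorff topological group which is precompact and
locally minimal: some neighbourhood `V` of `1` is not a neighbourhood of `1` for any strictly
coarser Hausdorff group topology on `G`; `H` is a closed normal subgroup of `G`.  If `H` is
infinite, there is a sequence of pairwise distinct points of `H` converging to `1`; and either `H`
is first countable (so metrizable), or there are closed normal subgroups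
`M 0 > M 1 > M 2 > ...` of `G`, contained in `H` and different from the trivial subgroup, such
that every neighbourhood of `1` contains `M n` for all large `n`.
Part (B), the special case of the question: every infinite Hausdorff topological group which is
minimal and precompact (in particular every infinite minimal precompact solvable or nilpotent
group, countably compact or not) contains a sequence of pairwise distinct points which
converges. -/
theorem result :
    (∀ (G : Type) [Group G] [t : TopologicalSpace G] [IsTopologicalGroup G] [T2Space G],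
      (∀ U ∈ 𝓝 (1 : G), ∃ F : Set G, F.Finite ∧ F * U = Set.univ) →
      (∃ V ∈ 𝓝 (1 : G), ∀ t' : TopologicalSpace G, @IsTopologicalGroup G t' _ →
        @T2Space G t' → t ≤ t' → V ∈ @nhds G t' 1 → t' = t) →
      ∀ H : Subgroup G, H.Normal → IsClosed (H : Set G) →
        ((H : Set G).Infinite →
          ∃ u : ℕ → G, Function.Injective u ∧ (∀ n, u n ∈ H) ∧ Tendsto u atTop (𝓝 1)) ∧
        (FirstCountableTopology H ∨
          ∃ M : ℕ → Subgroup G, StrictAnti M ∧
            (∀ n, (M n).Normal ∧ IsClosed (M n : Set G) ∧ M n ≠ ⊥ ∧ M n ≤ H) ∧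
            ∀ U ∈ 𝓝 (1 : G), ∀ᶠ n in atTop, (M n : Set G) ⊆ U)) ∧
    (∀ (G : Type) [Group G] [t : TopologicalSpace G] [IsTopologicalGroup G] [T2Space G]
      [Infinite G],
      (∀ U ∈ 𝓝 (1 : G), ∃ F : Set G, F.Finite ∧ F * U = Set.univ) →
      (∀ t' : TopologicalSpace G, @IsTopologicalGroup G t' _ → @T2Space G t' →
          t ≤ t' → t' = t) →
      ∃ (u : ℕ → G) (x : G), Function.Injective u ∧ Tendsto u atTop (𝓝 x)) := by
  have hprec : ∀ (G : Type) [Group G] [t : TopologicalSpace G],
      (∀ U ∈ 𝓝 (1 : G), ∃ F : Set G, F.Finite ∧ F * U = Set.univ) →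
      Pool.Agent.H241R3.Nil.Precompact G := by
    intro G _ t hpc U hU
    obtain ⟨F, hF, hFU⟩ := hpc U hU
    refine ⟨hF.toFinset, fun x => ?_⟩
    have hx : x ∈ F * U := by
      rw [hFU]
      exact Set.mem_univ x
    obtain ⟨g, hg, y, hy, hgy⟩ := Set.mem_mul.1 hx
    exact ⟨g, hF.mem_toFinset.2 hg, ⟨y, hy, hgy⟩⟩
  constructor
  · intro G _ t _ _ hpc hmin H hHn hH
    obtain ⟨V, hV, hmin⟩ := hmin
    have hm : Pool.Agent.Y131.LM.LocallyMinimal G :=
      ⟨V, hV, fun t' h1 h2 h3 h4 => hmin t' h2 h3 h1 h4⟩
    haveI := hHn
    exact ⟨fun hinf => Pool.Agent.Y131.LM.sequence (hprec G hpc) hm H hH hinf,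
      Pool.Agent.Y131.LM.dichotomy (hprec G hpc) hm H hH⟩
  · intro G _ t _ _ _ hpc hmin
    have hm : Pool.Agent.Y131.LM.LocallyMinimal G :=
      ⟨Set.univ, univ_mem, fun t' h1 h2 h3 _ => hmin t' h2 h3 h1⟩
    obtain ⟨u, hu, -, hlim⟩ := Pool.Agent.Y131.LM.sequence (hprec G hpc) hm ⊤
      (by rw [Subgroup.coe_top]; exact isClosed_univ)
      (by rw [Subgroup.coe_top]; exact Set.infinite_univ)
    exact ⟨u, 1, hu, hlim⟩

end Pool.Agent.Results.MP_47408d_gt.LocallyMinimal
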